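import Mathlib

namespace Pool.Agent.Results.MP_b33053_gt.Flat

open Set Metric Topology Filter
open scoped unitInterval ENNReal NNReal

section defs
variable (S : Type) [MetricSpace S]

/-- length metric space: distances are infima of lengths of paths -/
def IsLength : Prop :=
  ∀ x y : S, ∀ ε > 0, ∃ γ : Path x y, eVariationOn γ univ ≤ ENNReal.ofReal (dist x y + ε)

/-- singular `n`-simplices -/
abbrev Simp (n : ℕ) : Type := C(stdSimplex ℝ (Fin (n + 1)), S)

variable {S} in
/-- the `i`-th face of a singular simplex -/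
noncomputable def face {n : ℕ} (i : Fin (n + 2)) (τ : Simp S (n + 1)) : Simp S n :=
  τ.comp ⟨stdSimplex.map i.succAbove, stdSimplex.continuous_map _⟩

/-- the boundary operator on real singular chains -/
noncomputable def bd (n : ℕ) : (Simp S (n + 1) →₀ ℝ) →ₗ[ℝ] (Simp S n →₀ ℝ) :=
  Finsupp.linearCombination ℝ fun τ => ∑ i : Fin (n + 2), (-1 : ℝ) ^ (i : ℕ) • Finsupp.single (face i τ) 1

/-- `H_1(S, ℝ) = 0`: every real singular 1-cycle is a boundary -/
def H1Zero : Prop := LinearMap.ker (bd S 0) ≤ LinearMap.range (bd S 1)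

variable {S} in
/-- `dist_c(f, g)`: infimum over curves in `Lip_c(X → S)` of the largest length of a track -/
noncomputable def distLip {X : Type} [MetricSpace X] (c : ℝ≥0) (f g : X → S) : ℝ≥0∞ :=
  ⨅ (F : I → X → S) (_ : F 0 = f ∧ F 1 = g ∧ (∀ t, LipschitzWith c (F t)) ∧
    ∀ x, Continuous fun t => F t x), ⨆ x, eVariationOn (fun t => F t x) univ

/-- `diam_c(Lip_1(B^n(R) → S))` -/
noncomputable def diamLip (c : ℝ≥0) (n : ℕ) (R : ℝ) : ℝ≥0∞ :=
  ⨆ (f : closedBall (0 : EuclideanSpace ℝ (Fin n)) R → S) (g) (_ : LipschitzWith 1 f)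
    (_ : LipschitzWith 1 g), distLip c f g

end defs

abbrev E := Fin 3 → ℝ

def sg (n : ℤ) : ℤ := if n % 2 = 0 then 1 else -1

lemma sg_add (x y z : ℤ) : sg (x + sg y * z) = sg x * sg z := by
  unfold sg; split_ifs <;> omega

lemma sg_neg (y z : ℤ) : sg (-(sg y * z)) = sg z := by
  unfold sg; split_ifs <;> omega

lemma sg_sq (x : ℤ) : sg x * sg x = 1 := by unfold sg; split_ifs <;> rfl

@[ext] structure G where
  a : Fin 3 → ℤ
  h : (a 0 + a 1 + a 2) % 2 = 0

instance : Mul G := ⟨fun g k => ⟨fun i => g.a i + sg (g.a (i + 2)) * k.a i, by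
  have := g.h; have := k.h; unfold sg; split_ifs <;> omega⟩⟩
instance : One G := ⟨⟨0, rfl⟩⟩
instance : Inv G := ⟨fun g => ⟨fun i => -(sg (g.a (i + 2)) * g.a i), by
  have := g.h; unfold sg; split_ifs <;> omega⟩⟩

lemma mul_a (g k : G) (i : Fin 3) : (g * k).a i = g.a i + sg (g.a (i + 2)) * k.a i := rfl
lemma one_a (i : Fin 3) : (1 : G).a i = 0 := rfl
lemma inv_a (g : G) (i : Fin 3) : g⁻¹.a i = -(sg (g.a (i + 2)) * g.a i) := rfl

instance : Group G := Group.ofLeftAxioms
  (fun a b c => by ext i; simp only [mul_a, sg_add]; ring)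
  (fun a => by ext i; simp [mul_a, one_a, sg])
  (fun a => by ext i; simp only [mul_a, inv_a, one_a, sg_neg]; ring)

def act (g : G) (x : E) : E := fun i => sg (g.a (i + 2)) * x i + g.a i

instance : MulAction G E where
  smul := act
  one_smul x := by funext i; change act 1 x i = _; simp [act, one_a, sg]
  mul_smul g k x := by
    funext i; change act _ x i = act g (act k x) i
    simp only [act, mul_a, sg_add]; push_cast; ring

lemma smul_ap (g : G) (x : E) (i : Fin 3) : (g • x) i = sg (g.a (i + 2)) * x i + g.a i := rfl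

instance : IsIsometricSMul G E := ⟨fun g => Isometry.of_nndist_eq fun x y => by
  simp only [nndist_pi_def]
  congr 1
  funext i
  apply NNReal.eq
  simp only [coe_nndist, smul_ap, dist_add_right, sg]
  split_ifs <;> simp⟩

lemma sep {g : G} (hg : g ≠ 1) (x : E) : 1 ≤ dist x (g • x) := by
  have : ∃ i, g.a (i + 2) % 2 = 0 ∧ g.a i ≠ 0 := by
    by_contra h
    push Not at h
    have h0 : g.a 2 % 2 = 0 → g.a 0 = 0 := h 0
    have h1 : g.a 0 % 2 = 0 → g.a 1 = 0 := h 1
    have h2 : g.a 1 % 2 = 0 → g.a 2 = 0 := h 2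
    have := g.h
    refine hg (G.ext (funext fun i => ?_))
    fin_cases i
    · change g.a 0 = 0; omega
    · change g.a 1 = 0; omega
    · change g.a 2 = 0; omega
  obtain ⟨i, h1, h2⟩ := this
  refine le_trans ?_ (dist_le_pi_dist x (g • x) i)
  rw [smul_ap, sg, if_pos h1, Real.dist_eq]
  simp only [Int.cast_one, one_mul, sub_add_cancel_left, abs_neg]
  exact_mod_cast Int.one_le_abs h2

noncomputable def d (x y : E) : ℝ := ⨅ g : G, dist x (g • y)

lemma bdd (x y : E) : BddBelow (range fun g : G => dist x (g • y)) :=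
  ⟨0, by rintro _ ⟨g, rfl⟩; exact dist_nonneg⟩

lemma d_le (x y : E) (g : G) : d x y ≤ dist x (g • y) := ciInf_le (bdd x y) g

lemma d_le' (x y : E) : d x y ≤ dist x y := by simpa using d_le x y 1

lemma d_comm (x y : E) : d x y ≤ d y x := le_ciInf fun g => by
  have := d_le x y g⁻¹
  rwa [← dist_smul g, smul_inv_smul, dist_comm] at this

lemma d_tri (x y z : E) : d x z ≤ d x y + d y z :=
  le_ciInf_add_ciInf fun g k => (d_le x z (g * k)).trans <| by
    rw [mul_smul, ← dist_smul g y]
    exact dist_triangle _ _ _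

def T := E

noncomputable instance : PseudoMetricSpace T where
  dist := d
  dist_self x := le_antisymm ((d_le' x x).trans (dist_self (α := E) x).le)
    (le_ciInf fun _ => dist_nonneg)
  dist_comm x y := le_antisymm (d_comm x y) (d_comm y x)
  dist_triangle := d_tri

abbrev S := SeparationQuotient T

noncomputable def p (x : E) : S := SeparationQuotient.mk (X := T) x

lemma dist_p (x y : E) : dist (p x) (p y) = d x y := rfl

lemma d_loc {x y : E} (h : dist x y ≤ 1 / 2) : dist (p x) (p y) = dist x y := by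
  refine le_antisymm (d_le' x y) (le_ciInf fun g => ?_)
  rcases eq_or_ne g 1 with rfl | hg
  · simp
  · linarith [sep hg y, dist_triangle_left y (g • y) x]

lemma p_smul (g : G) (x : E) : p (g • x) = p x :=
  dist_le_zero.1 ((d_le _ _ g).trans (dist_self _).le)

lemma p_eq {x y : E} (h : p x = p y) : ∃ g : G, g • y = x := by
  obtain ⟨g, hg⟩ := exists_lt_of_ciInf_lt (show d x y < 1 / 2 by rw [← dist_p, h]; simp)
  refine ⟨g, eq_of_dist_eq_zero ?_⟩
  rw [dist_comm, ← d_loc hg.le, p_smul, h, dist_self]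

lemma p_lip : LipschitzWith 1 p := LipschitzWith.of_dist_le_mul fun x y => by
  simpa [dist_p] using d_le' x y

lemma p_cube : Function.Surjective fun x : Icc (0 : E) 2 => p x := fun s => by
  obtain ⟨x, rfl⟩ : ∃ x, p x = s := SeparationQuotient.surjective_mk s
  let g : G := ⟨fun i => -(2 * ⌊x i / 2⌋), by omega⟩
  have h : ∀ i, (g • x) i = x i - 2 * ⌊x i / 2⌋ := fun i => by
    rw [smul_ap, sg, if_pos (by simp [g])]; simp [g]; ring
  refine ⟨⟨g • x, fun i => ?_, fun i => ?_⟩, p_smul g x⟩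
  · rw [h, Pi.zero_apply]; linarith [Int.floor_le (x i / 2)]
  · rw [h, Pi.ofNat_apply]; linarith [Int.lt_floor_add_one (x i / 2)]

lemma cov : IsCoveringMap p := by
  have hc : Continuous fun x : Icc (0 : E) 2 => p x := p_lip.continuous.comp continuous_subtype_val
  refine IsQuotientCoveringMap.isCoveringMap p G
    ⟨.of_comp continuous_subtype_val p_lip.continuous (hc.isClosedMap.isQuotientMap hc p_cube),
      inferInstance, ⟨p_eq, ?_⟩, fun e => ⟨ball e (1 / 2), ball_mem_nhds _ (by norm_num), ?_⟩⟩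
  · rintro ⟨g, rfl⟩; exact p_smul g _
  · rintro g ⟨_, ⟨x, hx, rfl⟩, h⟩
    by_contra hg
    linarith [sep hg x, dist_triangle_right x (g • x) e, mem_ball.1 hx, mem_ball.1 h]

lemma isLength : IsLength S := by
  intro s s' ε hε
  obtain ⟨⟨x, -⟩, rfl⟩ := p_cube s
  obtain ⟨⟨y, -⟩, rfl⟩ := p_cube s'
  obtain ⟨g, hg⟩ := exists_lt_of_ciInf_lt (show d x y < d x y + ε by linarith)
  have hl := p_lip.comp (lipschitzWith_lineMap (𝕜 := ℝ) x (g • y))
  refine ⟨⟨⟨fun t => p (AffineMap.lineMap x (g • y) (t : ℝ)),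
    hl.continuous.comp continuous_subtype_val⟩, by simp, by simp [p_smul]⟩, ?_⟩
  have h1 := (hl.lipschitzOnWith (s := univ)).comp_eVariationOn_le
    (g := fun t : I => (t : ℝ)) (s := univ) (mapsTo_univ _ _)
  have h2 := (MonotoneOn.eVariationOn_eq (f := fun t : I => (t : ℝ)) (s := univ) (a := 0) (b := 1)
    (fun _ _ _ _ h => h) trivial trivial).le
  rw [univ_inter, show Icc (0 : I) 1 = univ from Icc_bot_top] at h2
  refine h1.trans ((mul_le_mul_right h2 _).trans ?_)
  simpa [← edist_nndist, edist_dist, dist_p] using ENNReal.ofReal_le_ofReal hg.le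

lemma len (u : C(I, E)) : edist (u 0) (u 1) ≤ eVariationOn (fun t => p (u t)) univ := by
  obtain ⟨t, h0, hm, ⟨n, hn⟩, h⟩ := exists_monotone_Icc_subset_open_cover_unitInterval
    (c := fun e : E => u ⁻¹' ball e (1 / 4)) (fun e => isOpen_ball.preimage u.continuous)
    fun s _ => mem_iUnion.2 ⟨u s, mem_ball_self (by norm_num)⟩
  refine le_trans ?_ (eVariationOn.sum_le (n := n) hm fun _ => trivial)
  have := edist_le_range_sum_edist (fun i => u (t i)) n
  rw [h0, hn n le_rfl] at this
  refine this.trans (Finset.sum_le_sum fun i _ => le_of_eq ?_)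
  obtain ⟨e, he⟩ := h i
  have h1 := he ⟨le_rfl, hm i.le_succ⟩
  have h2 := he ⟨hm i.le_succ, le_rfl⟩
  rw [edist_dist, edist_dist, d_loc, dist_comm]
  linarith [dist_triangle_right (u (t (i + 1))) (u (t i)) e, mem_ball.1 h1, mem_ball.1 h2]

lemma lower (c : ℝ≥0) {R : ℝ} (hR : 0 ≤ R) : ENNReal.ofReal R ≤ diamLip S c 1 R := by
  let B := closedBall (0 : EuclideanSpace ℝ (Fin 1)) R
  let l : B → E := fun x _ => x.1 0
  have hl : LipschitzWith 1 l := LipschitzWith.of_dist_le_mul fun x y => by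
    rw [NNReal.coe_one, one_mul, dist_pi_le_iff dist_nonneg]
    exact fun _ => PiLp.dist_apply_le x.1 y.1 0
  refine le_iSup₂_of_le (fun _ => p 0) (p ∘ l) (le_iSup₂_of_le (LipschitzWith.const' _)
    (by simpa using p_lip.comp hl) (le_iInf₂ fun F ⟨h0, h1, h2, h3⟩ => ?_))
  let H : C(I × B, S) := ⟨fun z => F z.1 z.2, continuous_prod_of_continuous_lipschitzWith' _ c h2 h3⟩
  have H0 : ∀ a, H (0, a) = p ((ContinuousMap.const B (0 : E)) a) := fun a => congrFun h0 a
  let L := cov.liftHomotopy H _ H0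
  have hL : ∀ t a, p (L (t, a)) = F t a := fun t a => congrFun (cov.liftHomotopy_lifts H _ H0) (t, a)
  have : PreconnectedSpace B := Subtype.preconnectedSpace (convex_closedBall _ _).isPreconnected
  let a : B := ⟨.single 0 R, by simp [B, abs_of_nonneg hR]⟩
  let b : B := ⟨.single 0 (-R), by simp [B, abs_of_nonneg hR]⟩
  obtain ⟨g, hg⟩ := p_eq (show p (L (1, a)) = p (l a) by rw [hL, h1]; rfl)
  have e := cov.eq_of_comp_eq (g₁ := fun x => g • l x) (g₂ := fun x => L (1, x))
    (hl.continuous.const_smul g) (by fun_prop)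
    (funext fun x => by simp only [Function.comp, p_smul, hL, h1]) a hg
  have key : ∀ x, ENNReal.ofReal (dist 0 (g • l x)) ≤ ⨆ x, eVariationOn (fun t => F t x) univ :=
    fun x => by
      have := len (L.comp ⟨fun t => (t, x), by fun_prop⟩)
      simp only [ContinuousMap.comp_apply, ContinuousMap.coe_mk, hL] at this
      rw [cov.liftHomotopy_zero, ← congrFun e x, edist_dist] at this
      exact le_iSup_of_le x this
  have h4 : 2 * R ≤ dist (g • l a) (g • l b) := by
    rw [dist_smul]
    refine le_trans ?_ (dist_le_pi_dist _ _ 0)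
    simp only [l, a, b, PiLp.single_apply, if_true, Real.dist_eq]
    exact le_trans (by linarith) (le_abs_self _)
  have h5 := dist_triangle_left (g • l a) (g • l b) 0
  rcases le_total R (dist 0 (g • l a)) with h | h
  · exact (ENNReal.ofReal_le_ofReal h).trans (key a)
  · exact (ENNReal.ofReal_le_ofReal (by linarith)).trans (key b)

abbrev Q := (Simp S 1 →₀ ℝ) ⧸ LinearMap.range (bd S 1)

lemma co {n : ℕ} (i : Fin n) : Continuous fun t : stdSimplex ℝ (Fin n) => t i :=
  (continuous_apply i).comp continuous_subtype_val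

noncomputable def sim (c : C(ℝ, E)) : Simp S 1 :=
  ⟨fun t => p (c (t 1)), p_lip.continuous.comp (c.continuous.comp (co 1))⟩

noncomputable def cls (c : C(ℝ, E)) : Q := (LinearMap.range (bd S 1)).mkQ (Finsupp.single (sim c) 1)

lemma cls_congr {c c' : C(ℝ, E)} (h : ∀ s, p (c s) = p (c' s)) : cls c = cls c' := by
  rw [cls, cls, show sim c = sim c' from ContinuousMap.ext fun t => h _]

lemma rel (H : C(ℝ × ℝ, E)) {c0 c1 c2 : C(ℝ, E)} (h0 : ∀ s, H (1 - s, s) = c0 s)
    (h1 : ∀ s, H (0, s) = c1 s) (h2 : ∀ s, H (s, 0) = c2 s) : cls c0 + cls c2 = cls c1 := by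
  let τ : Simp S 2 := ⟨fun t => p (H (t 1, t 2)),
    p_lip.continuous.comp (H.continuous.comp ((co 1).prodMk (co 2)))⟩
  have e0 : face 0 τ = sim c0 := ContinuousMap.ext fun t => by
    have := stdSimplex.add_eq_one t
    simp [face, τ, sim, FunOnFinite.linearMap_apply_apply, Finset.sum_filter, Fin.sum_univ_two, ← h0,
      ← this]
  have e1 : face 1 τ = sim c1 := ContinuousMap.ext fun t => by
    simp [face, τ, sim, FunOnFinite.linearMap_apply_apply, Finset.sum_filter, Fin.sum_univ_two, ← h1,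
      Fin.succAbove]
  have e2 : face 2 τ = sim c2 := ContinuousMap.ext fun t => by
    simp [face, τ, sim, FunOnFinite.linearMap_apply_apply, Finset.sum_filter, Fin.sum_univ_two, ← h2,
      Fin.succAbove]
  have := (Submodule.Quotient.mk_eq_zero _).2 (LinearMap.mem_range_self (bd S 1) (Finsupp.single τ 1))
  rw [← Submodule.mkQ_apply, bd, Finsupp.linearCombination_single, one_smul, Fin.sum_univ_three,
    e0, e1, e2] at this
  simp only [map_add, map_smul] at this
  have h : cls c0 - cls c1 + cls c2 = 0 := by simpa [cls, bd, sub_eq_add_neg] using! this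
  linear_combination (norm := abel) h

noncomputable def seg (x y : E) : C(ℝ, E) := ⟨fun s => x + s • (y - x), by fun_prop⟩

noncomputable def e (x y : E) : Q := cls (seg x y)

lemma e_add (x y z : E) : e x y + e y z = e x z := by
  rw [add_comm]
  exact rel ⟨fun w => x + w.1 • (y - x) + w.2 • (z - x), by fun_prop⟩
    (fun s => by simp only [seg, ContinuousMap.coe_mk]; module) (fun s => by simp [seg])
    fun s => by simp [seg]

lemma e_self (x : E) : e x x = 0 := by simpa using e_add x x x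

lemma e_smul (g : G) (x y : E) : e (g • x) (g • y) = e x y := cls_congr fun s => by
  rw [← p_smul g (seg x y s)]
  congr 1
  funext i
  simp only [seg, ContinuousMap.coe_mk, Pi.add_apply, smul_ap, Pi.smul_apply, Pi.sub_apply,
    smul_eq_mul]
  ring

lemma cls_eq (c : C(ℝ, E)) : cls c = e (c 0) (c 1) := by
  let H : ℝ → ℝ → E := fun s u => (1 - u) • c s + u • seg (c 0) (c 1) s
  have h1 := rel ⟨fun w => H (w.1 + w.2) w.2, by fun_prop⟩ (c0 := seg (c 1) (c 1))
    (c1 := ⟨fun s => H s s, by fun_prop⟩) (c2 := c)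
    (fun s => by simp only [H, seg, ContinuousMap.coe_mk, sub_add_cancel]; module)
    (fun s => by simp) fun s => by simp [H]
  have h2 := rel ⟨fun w => H w.2 (w.1 + w.2), by fun_prop⟩ (c0 := seg (c 0) (c 1))
    (c1 := ⟨fun s => H s s, by fun_prop⟩) (c2 := seg (c 0) (c 0))
    (fun s => by simp [H]) (fun s => by simp)
    fun s => by simp only [H, seg, ContinuousMap.coe_mk, add_zero]; module
  change e _ _ + _ = _ at h1
  change e _ _ + e _ _ = _ at h2
  rw [e_self] at h1 h2
  simpa using h1.trans h2.symm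

noncomputable def h (g : G) : Q := e 0 (g • 0)

lemma h_mul (g k : G) : h (g * k) = h g + h k := by
  rw [h, h, h, mul_smul, ← e_smul g 0 (k • 0), e_add]

lemma h_one : h 1 = 0 := by rw [h, one_smul, e_self]

lemma h_conj (g k : G) : h (g * k * g⁻¹) = h k := by
  have := h_mul g g⁻¹
  rw [mul_inv_cancel, h_one] at this
  rw [h_mul, h_mul]
  linear_combination (norm := abel) -this

lemma h_zero (g : G) : h g = 0 := by
  let a : G := ⟨![1, 1, 0], rfl⟩
  let b : G := ⟨![0, 1, 1], rfl⟩
  let c : G := ⟨![1, 0, 1], rfl⟩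
  have h1 : ∀ i, sg ((g * g).a i) = 1 := fun i => by rw [mul_a, sg_add, sg_sq]
  have h2 : ∀ (k : G) i, (k * (g * g) * k⁻¹).a i = sg (k.a (i + 2)) * (g * g).a i := fun k i => by
    rw [mul_a, mul_a k, mul_a k, sg_add, h1, inv_a]
    linear_combination -k.a i * sg_sq (k.a (i + 2))
  have h3 : ∀ (k : G) i, sg ((k * (g * g) * k⁻¹).a i) = 1 := fun k i => by
    rw [h2, ← zero_add (_ * _), sg_add, h1]; rfl
  have : g * g * (a * (g * g) * a⁻¹ * (b * (g * g) * b⁻¹ * (c * (g * g) * c⁻¹))) = 1 := by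
    ext i
    rw [mul_a (g * g), mul_a (a * _ * _), mul_a (b * _ * _), h1, h3, h3, h2, h2, h2, one_a]
    generalize (g * g).a i = x
    fin_cases i <;> simp [a, b, c, sg]
  have := congrArg h this
  rw [h_mul (g * g), h_mul (a * _ * _), h_mul (b * _ * _), h_conj, h_conj, h_conj, h_mul, h_one] at this
  have h8 : (8 : ℝ) • h g = 0 := by rw [← this]; module
  simpa using h8

noncomputable def G0 (s : S) : Q := e 0 (p_cube s).choose

lemma G0_p (x : E) : G0 (p x) = e 0 x := by
  obtain ⟨g, hg⟩ := p_eq (p_cube (p x)).choose_spec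
  rw [G0, ← hg, ← e_add 0 (g • 0), e_smul]
  change h g + _ = _
  rw [h_zero, zero_add]

lemma h1zero : H1Zero S := by
  intro z hz
  let Ψ : (Simp S 0 →₀ ℝ) →ₗ[ℝ] Q := Finsupp.linearCombination ℝ fun ρ => G0 (ρ (stdSimplex.vertex 0))
  have : (LinearMap.range (bd S 1)).mkQ = Ψ.comp (bd S 0) := by
    refine Finsupp.lhom_ext' fun τ => LinearMap.ext_ring ?_
    let γ : C(I, S) := τ.comp (stdSimplexHomeomorphUnitInterval.symm : C(I, _))
    obtain ⟨x, hx⟩ := p_cube (γ 0)
    obtain ⟨Γ, h1, -⟩ := cov.exists_path_lifts γ x.1 hx.symm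
    let c : C(ℝ, E) := Γ.comp ContinuousMap.projIccCM
    have : τ = sim c := ContinuousMap.ext fun t => by
      have h2 : c (t 1) = Γ (stdSimplexHomeomorphUnitInterval t) :=
        congrArg Γ (projIcc_of_mem zero_le_one (mem_Icc_of_mem_stdSimplex t.2 1))
      change _ = p (c (t 1))
      rw [h2]
      refine Eq.trans ?_ (congrFun h1 _).symm
      simp [γ]
    rw [this]
    change cls c = Ψ (bd S 0 (Finsupp.single (sim c) 1))
    rw [cls_eq, eq_sub_of_add_eq' (e_add 0 (c 0) (c 1))]
    simp [bd, Ψ, face, sim, Fin.sum_univ_two, G0_p, sub_eq_add_neg]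
  rw [← Submodule.Quotient.mk_eq_zero, ← Submodule.mkQ_apply, this, LinearMap.comp_apply,
    LinearMap.mem_ker.1 hz, map_zero]

theorem result : ∃ (S : Type) (_ : MetricSpace S), CompactSpace S ∧ PathConnectedSpace S ∧
    IsLength S ∧ H1Zero S ∧ (∀ c R, 0 ≤ R → ENNReal.ofReal R ≤ diamLip S c 1 R) ∧
    ∀ c, ⨆ R > 0, diamLip S c 1 R = ⊤ := by
  refine ⟨S, inferInstance, p_cube.compactSpace (p_lip.continuous.comp continuous_subtype_val),
    ⟨⟨p 0⟩, fun x y => ⟨(isLength x y 1 one_pos).choose⟩⟩, isLength, h1zero, fun c R => lower c,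
    fun c => ENNReal.eq_top_of_forall_nnreal_le fun r => ?_⟩
  refine le_iSup₂_of_le ((r : ℝ) + 1) (by positivity) (le_trans ?_ (lower c (by positivity)))
  rw [← ENNReal.ofReal_coe_nnreal]
  exact ENNReal.ofReal_le_ofReal (by linarith)

end Pool.Agent.Results.MP_b33053_gt.Flat
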